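import Mathlib
import Pool.Agent.P.MP_8c6834_co.Defs
import Pool.Agent.P.MP_8c6834_co.Far5

set_option autoImplicit false

open Pool.Agent.P.MP_8c6834_co

/-- For every `t ≥ 2` there is `c` such that every long chain `C_k` has an induced copy in some
`[t]^n` (and in `[t]^(n+d)`) and `sat*([t]^(n+d+1), C_k) < sat*([t]^(n+d), C_k)` for some `d ≥ k / c`. -/
theorem Pool.Agent.Results.MP_8c6834_co.FarInN.result :
    ∀ t : ℕ, 2 ≤ t → ∃ c k0 : ℕ, ∀ k : ℕ, k0 ≤ k → ∃ n d : ℕ, 0 < n ∧ k ≤ c * d ∧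
      Nonempty (Fin k ↪o Grid n t) ∧ Nonempty (Fin k ↪o Grid (n + d) t) ∧
      satStar (Fin k) (n + d + 1) t < satStar (Fin k) (n + d) t := by
  intro t ht
  obtain ⟨c, k0, h⟩ := Far.dropN ht
  refine ⟨c, k0, fun k hk => ?_⟩
  obtain ⟨n, d, h1, h2, h3, h4⟩ := h k hk
  have : n * (t - 1) ≤ (n + d) * (t - 1) := Nat.mul_le_mul_right _ (by omega)
  exact ⟨n, d, h1, h2, Far.chain_emb ht h3, Far.chain_emb ht (by omega), h4⟩
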