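import Mathlib
import Pool.Agent.P.MP_8c6834_co.Defs
import Pool.Agent.P.MP_8c6834_co.Cube

set_option autoImplicit false

open Pool.Agent.P.MP_8c6834_co

/-- There is a finite poset `P` with an induced copy in the Boolean lattice `[2]^4` such that
`sat*([2]^5, P) < sat*([2]^4, P)`: the induced saturation number is not monotone in `n`. -/
theorem Pool.Agent.Results.MP_8c6834_co.NotMonotoneInN.result :
    ∃ (P : Type) (_ : Fintype P) (_ : PartialOrder P),
      Nonempty (P ↪o Grid 4 2) ∧ satStar P (4 + 1) 2 < satStar P 4 2 :=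
  ⟨Q7, inferInstance, inferInstance, cube_copy,
    lt_of_le_of_lt cube_upper (lt_of_lt_of_le (by norm_num) cube_lower)⟩
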