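import Mathlib
import Pool.Agent.P.MP_8c6834_co.Defs
import Pool.Agent.P.MP_8c6834_co.Far3

set_option autoImplicit false

open Pool.Agent.P.MP_8c6834_co

/-- For all `n ≥ 2` and `t ≥ 4` the chain `C_(t+3)` has an induced copy in `[s]^n` as soon as
`n (s - 1) ≥ t + 2`, in particular in `[t]^n`, and
`sat*([t+1]^n, C_(t+3)) < sat*([t]^n, C_(t+3))`. -/
theorem Pool.Agent.Results.MP_8c6834_co.NotMonotoneInT.result :
    ∀ n t : ℕ, 2 ≤ n → 4 ≤ t →
      (∀ s : ℕ, t + 2 ≤ n * (s - 1) → Nonempty (Fin (t + 3) ↪o Grid n s)) ∧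
      Nonempty (Fin (t + 3) ↪o Grid n t) ∧
      satStar (Fin (t + 3)) n (t + 1) < satStar (Fin (t + 3)) n t := by
  intro n t hn ht
  have h : ∀ s : ℕ, t + 2 ≤ n * (s - 1) → Nonempty (Fin (t + 3) ↪o Grid n s) := by
    intro s hs
    refine Far.chain_emb ?_ (by omega)
    by_contra h2
    rw [show s - 1 = 0 by omega] at hs
    omega
  refine ⟨h, h t ?_, Far.dropT hn ht⟩
  have : 2 * (t - 1) ≤ n * (t - 1) := Nat.mul_le_mul_right _ hn
  omega
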